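import Pool.Agent.Helper38_LDP.Stmts

/-! Squad LDP, module EXA: exact degrees and additivity of the weight. -/

namespace Pool.Agent.LDP.H85

open Polynomial
open scoped Polynomial.Bivariate

/-- `X ↦ X Z`, `Y ↦ Y Z^ρ`, inner part -/
noncomputable def wt0 (L : Type*) [CommRing L] : Polynomial L →+* Polynomial (Polynomial (Polynomial L)) :=
  eval₂RingHom
    ((C : Polynomial (Polynomial L) →+* Polynomial (Polynomial (Polynomial L))).comp
      ((C : Polynomial L →+* Polynomial (Polynomial L)).comp (C : L →+* Polynomial L)))
    ((C (C (X : Polynomial L)) : Polynomial (Polynomial (Polynomial L))) * X)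

/-- `X ↦ X Z`, `Y ↦ Y Z^ρ` -/
noncomputable def wt (ρ : ℕ) (L : Type*) [CommRing L] :
    L[X][Y] →+* Polynomial (Polynomial (Polynomial L)) :=
  eval₂RingHom (wt0 L) ((C (X : Polynomial (Polynomial L)) : Polynomial (Polynomial (Polynomial L))) * X ^ ρ)

lemma wt_monomial (ρ : ℕ) {L : Type*} [CommRing L] (i j : ℕ) (c : L) :
    wt ρ L (monomial j (monomial i c)) = monomial (i + ρ * j) (monomial j (monomial i c)) := by
  have h1 : wt ρ L (monomial j (monomial i c))
      = C (C (C c)) * (C (C X) * X) ^ i * (C X * X ^ ρ) ^ j := by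
    simp [wt, wt0, eval₂_monomial]
  rw [h1]
  have h2 : (monomial j (monomial i c) : L[X][Y]) = C (C c * X ^ i) * X ^ j := by
    rw [C_mul_X_pow_eq_monomial, C_mul_X_pow_eq_monomial]
  rw [h2, ← C_mul_X_pow_eq_monomial]
  simp only [map_mul, map_pow]
  ring

lemma wt_coeff (ρ : ℕ) {L : Type*} [CommRing L] (g : L[X][Y]) (k j i : ℕ) :
    (((wt ρ L g).coeff k).coeff j).coeff i = if k = i + ρ * j then (g.coeff j).coeff i else 0 := by
  induction g using Polynomial.induction_on' with
  | add p q hp hq =>
    simp only [map_add, coeff_add, hp, hq]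
    split_ifs <;> simp
  | monomial n a =>
    induction a using Polynomial.induction_on' with
    | add p q hp hq =>
      simp only [map_add, coeff_add, hp, hq]
      split_ifs <;> simp
    | monomial m c =>
      rw [wt_monomial]
      simp only [coeff_monomial]
      by_cases h1 : m + ρ * n = k
      · rw [if_pos h1]
        by_cases h2 : n = j
        · subst h2
          simp only [coeff_monomial, if_true]
          by_cases h3 : m = i
          · subst h3
            simp [h1]
          · simp [h3]
        · have : ((0 : L[X])).coeff i = 0 := by simp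
          simp [coeff_monomial, h2]
      · rw [if_neg h1]
        by_cases h2 : n = j
        · subst h2
          by_cases h3 : m = i
          · subst h3
            simp [Ne.symm h1]
          · simp [coeff_monomial, h3]
        · simp [h2]

lemma wt_ne_zero (ρ : ℕ) {L : Type*} [CommRing L] {g : L[X][Y]} (hg : g ≠ 0) :
    wt ρ L g ≠ 0 := by
  intro h
  apply hg
  ext j i
  have h1 := wt_coeff ρ g (i + ρ * j) j i
  rw [h] at h1
  simpa using h1.symm

lemma le_natDegree_wt (ρ : ℕ) {L : Type*} [CommRing L] (g : L[X][Y]) (i j : ℕ)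
    (h : (g.coeff j).coeff i ≠ 0) : i + ρ * j ≤ (wt ρ L g).natDegree := by
  apply le_natDegree_of_ne_zero
  intro h0
  have h1 := wt_coeff ρ g (i + ρ * j) j i
  rw [h0] at h1
  simp at h1
  exact h h1.symm

lemma le_natDegree_of_coeff_coeff {L : Type*} [CommRing L] (g : L[X][Y]) (i j : ℕ)
    (h : (g.coeff j).coeff i ≠ 0) : j ≤ g.natDegree := by
  apply le_natDegree_of_ne_zero
  intro h0
  rw [h0] at h
  simp at h

theorem exa : ExaStmt := by
  intro ρ L _ g hg
  refine ⟨(wt ρ L g).natDegree, g.natDegree, ?_, ?_, rfl, ?_⟩
  · intro i j hij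
    exact ⟨le_natDegree_of_coeff_coeff g i j hij, le_natDegree_wt ρ g i j hij⟩
  · have h1 : (g.coeff g.natDegree).coeff (g.coeff g.natDegree).natDegree ≠ 0 := by
      have h2 : g.coeff g.natDegree ≠ 0 := by
        rw [coeff_natDegree]
        exact leadingCoeff_ne_zero.mpr hg
      rw [coeff_natDegree]
      exact leadingCoeff_ne_zero.mpr h2
    have h3 := le_natDegree_wt ρ g _ _ h1
    omega
  · intro h A B hh hgh
    have hA : (wt ρ L (g * h)).natDegree ≤ A := by
      rw [natDegree_le_iff_coeff_eq_zero]
      intro k hk
      ext j i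
      rw [wt_coeff]
      split_ifs with hki
      · by_contra hne
        have hne' : ((g * h).coeff j).coeff i ≠ 0 := by simpa using hne
        have := (hgh i j hne').2
        omega
      · simp
    have hB : (g * h).natDegree ≤ B := by
      rw [natDegree_le_iff_coeff_eq_zero]
      intro j hj
      ext i
      by_contra hne
      have hne' : ((g * h).coeff j).coeff i ≠ 0 := by simpa using hne
      have := (hgh i j hne').1
      omega
    rw [map_mul, natDegree_mul (wt_ne_zero ρ hg) (wt_ne_zero ρ hh)] at hA
    rw [natDegree_mul hg hh] at hB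
    refine ⟨by omega, by omega, ?_⟩
    intro i j hij
    have h1 := le_natDegree_of_coeff_coeff h i j hij
    have h2 := le_natDegree_wt ρ h i j hij
    exact ⟨by omega, by omega⟩

end Pool.Agent.LDP.H85
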