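import Pool.Agent.Helper38_LDP.Stmts

/-! Squad LDP, module UNI: units modulo `N - λ` over `ℂ(λ)` are constants. -/

namespace Pool.Agent.LDP.H85

open Polynomial
open scoped Polynomial.Bivariate

/-- clearing denominators -/
lemma clear {A K : Type*} [CommRing A] [IsDomain A] [Field K] [Algebra A K] [IsFractionRing A K]
    (u : K[X][Y]) :
    ∃ (p : A) (U : A[X][Y]), p ≠ 0 ∧
      bmap (algebraMap A K) U = C (C (algebraMap A K p)) * u := by
  induction u using Polynomial.induction_on' with
  | add a b ha hb =>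
    obtain ⟨p, U, hp, hU⟩ := ha
    obtain ⟨q, W, hq, hW⟩ := hb
    refine ⟨p * q, C (C q) * U + C (C p) * W, mul_ne_zero hp hq, ?_⟩
    simp only [bmap] at *
    rw [Polynomial.map_add, Polynomial.map_mul, Polynomial.map_mul, hU, hW]
    simp only [map_C, coe_mapRingHom, map_mul]
    ring
  | monomial n a =>
    induction a using Polynomial.induction_on' with
    | add a b ha hb =>
      obtain ⟨p, U, hp, hU⟩ := ha
      obtain ⟨q, W, hq, hW⟩ := hb
      refine ⟨p * q, C (C q) * U + C (C p) * W, mul_ne_zero hp hq, ?_⟩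
      simp only [bmap] at *
      rw [Polynomial.map_add, Polynomial.map_mul, Polynomial.map_mul, hU, hW]
      simp only [map_C, coe_mapRingHom, map_mul, map_add]
      ring
    | monomial m c =>
      obtain ⟨x, y, hy, rfl⟩ := IsFractionRing.div_surjective (A := A) c
      have hy0 : y ≠ 0 := nonZeroDivisors.ne_zero hy
      have hy1 : algebraMap A K y ≠ 0 := by
        intro h
        exact hy0 ((IsFractionRing.injective A K) (by simpa using h))
      refine ⟨y, monomial n (monomial m x), hy0, ?_⟩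
      simp only [bmap, map_monomial, coe_mapRingHom]
      rw [C_mul_monomial, C_mul_monomial, mul_div_cancel₀]
      exact hy1

/-- substitution `λ ↦ N` -/
noncomputable def sub {k A : Type*} [CommRing k] [CommRing A] (θ : A →+* k[X][Y]) :
    A[X][Y] →+* k[X][Y] :=
  eval₂RingHom (eval₂RingHom θ (C X)) X

lemma sub_CC {k A : Type*} [CommRing k] [CommRing A] (θ : A →+* k[X][Y]) (p : A) :
    sub θ (C (C p)) = θ p := by
  simp [sub]

lemma sub_bmap {k A : Type*} [CommRing k] [CommRing A] (θ : A →+* k[X][Y]) (ι : k →+* A)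
    (hι : ∀ c, θ (ι c) = C (C c)) (g : k[X][Y]) : sub θ (bmap ι g) = g := by
  have h : (sub θ).comp (mapRingHom (mapRingHom ι)) = RingHom.id _ := by
    apply Polynomial.ringHom_ext'
    · apply Polynomial.ringHom_ext'
      · ext c
        simp [sub, hι]
      · simp [sub]
    · simp [sub]
  exact congrArg (fun f => f g) h

lemma dvd_sub {k A : Type} [CommRing k] [CommRing A] (θ : A →+* k[X][Y]) (ι : k →+* A)
    (x : A) (hι : ∀ c, θ (ι c) = C (C c))
    (hext : ∀ (T : Type) [CommRing T] (f g : A →+* T), (∀ c, f (ι c) = g (ι c)) → f x = g x →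
      f = g) (U : A[X][Y]) :
    (bmap ι (θ x) - C (C x)) ∣ U - bmap ι (sub θ U) := by
  suffices h0 : U - bmap ι (sub θ U) ∈ Ideal.span {bmap ι (θ x) - C (C x)} from
    Ideal.mem_span_singleton.mp h0
  rw [← Ideal.Quotient.mk_eq_mk_iff_sub_mem]
  set I : Ideal A[X][Y] := Ideal.span {bmap ι (θ x) - C (C x)} with hI
  have h : Ideal.Quotient.mk I
      = ((Ideal.Quotient.mk I).comp (mapRingHom (mapRingHom ι))).comp (sub θ) := by
    apply Polynomial.ringHom_ext'
    · apply Polynomial.ringHom_ext'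
      · refine hext (A[X][Y] ⧸ I) _ _ ?_ ?_
        · intro c
          simp [sub, hι]
        · simp only [RingHom.comp_apply]
          rw [sub_CC, Ideal.Quotient.mk_eq_mk_iff_sub_mem, Ideal.mem_span_singleton]
          have h2 : (C (C x) : A[X][Y]) - (mapRingHom (mapRingHom ι)) (θ x)
            = - (bmap ι (θ x) - C (C x)) := by
            simp [bmap]
          rw [h2]
          exact (dvd_neg (α := A[X][Y])).mpr (dvd_refl (bmap ι (θ x) - C (C x)))
      · simp [sub]
    · simp [sub]
  exact congrArg (fun f => f U) h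

lemma exists_of_dvd_prod (N : ℂ[X][Y]) (hN : ∀ c : ℂ, Irreducible (N - C (C c))) (l : ℂ)
    (hl : l ≠ 0) (s : Multiset ℂ) :
    ∀ x : ℂ[X][Y], x ∣ C (C l) * (s.map (fun c => N - C (C c))).prod →
      ∃ P : ℂ[X], P ≠ 0 ∧ x = aeval N P := by
  induction s using Multiset.induction_on with
  | empty =>
    intro x hx
    simp only [Multiset.map_zero, Multiset.prod_zero, mul_one] at hx
    have hu : IsUnit (C (C l) : ℂ[X][Y]) := by
      have : IsUnit l := hl.isUnit
      exact (this.map C).map C
    have hx1 : IsUnit x := isUnit_of_dvd_unit hx hu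
    obtain ⟨a, ha, hax⟩ := Polynomial.isUnit_iff.mp hx1
    obtain ⟨b, hb, hbx⟩ := Polynomial.isUnit_iff.mp ha
    refine ⟨C b, ?_, ?_⟩
    · simpa using hb.ne_zero
    · rw [← hax, ← hbx]
      simp
  | cons c s ih =>
    intro x hx
    rw [Multiset.map_cons, Multiset.prod_cons] at hx
    have hp : Prime (N - C (C c)) := (hN c).prime
    by_cases h : (N - C (C c)) ∣ x
    · obtain ⟨y, rfl⟩ := h
      have h2 : y ∣ C (C l) * (s.map (fun c => N - C (C c))).prod := by
        have h3 : (N - C (C c)) * y ∣ (N - C (C c)) * (C (C l) * (s.map (fun c => N - C (C c))).prod) := by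
          convert hx using 1
          ring
        exact (mul_dvd_mul_iff_left hp.ne_zero).mp h3
      obtain ⟨P, hP, rfl⟩ := ih y h2
      refine ⟨(X - C c) * P, mul_ne_zero (X_sub_C_ne_zero c) hP, ?_⟩
      simp
    · apply ih
      obtain ⟨y, hy⟩ := hx
      have h3 : (N - C (C c)) ∣ x * y := by
        rw [← hy]
        exact ⟨C (C l) * (s.map (fun c => N - C (C c))).prod, by ring⟩
      rcases hp.dvd_or_dvd h3 with h4 | h4
      · exact absurd h4 h
      · obtain ⟨z, rfl⟩ := h4
        refine ⟨z, ?_⟩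
        apply mul_left_cancel₀ hp.ne_zero
        calc (N - C (C c)) * (C (C l) * (s.map (fun c => N - C (C c))).prod)
            = C (C l) * ((N - C (C c)) * (s.map (fun c => N - C (C c))).prod) := by ring
          _ = x * ((N - C (C c)) * z) := hy
          _ = (N - C (C c)) * (x * z) := by ring

lemma aeval_eq_prod (N : ℂ[X][Y]) (p : ℂ[X]) :
    aeval N p = C (C p.leadingCoeff) * (p.roots.map (fun c => N - C (C c))).prod := by
  have h := (IsAlgClosed.splits p).eq_prod_roots
  conv_lhs => rw [h]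
  rw [map_mul, aeval_C, map_multiset_prod, Multiset.map_map]
  congr 1
  · congr 1
    apply Multiset.map_congr rfl
    intro c _
    simp

lemma aeval_ne_zero (N : ℂ[X][Y]) (hN : ∀ c : ℂ, Irreducible (N - C (C c))) (p : ℂ[X])
    (hp : p ≠ 0) : aeval N p ≠ 0 := by
  rw [aeval_eq_prod]
  apply mul_ne_zero
  · simpa using hp
  · intro h0
    rw [Multiset.prod_eq_zero_iff, Multiset.mem_map] at h0
    obtain ⟨c, _, hc⟩ := h0
    exact (hN c).ne_zero hc

lemma bmap_comp {A B D : Type*} [CommRing A] [CommRing B] [CommRing D] (φ : A →+* B)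
    (ψ : B →+* D) (G : A[X][Y]) : bmap ψ (bmap φ G) = bmap (ψ.comp φ) G := by
  simp only [bmap, Polynomial.map_map]
  congr 1
  rw [← mapRingHom_comp]

lemma bmap_injective {A B : Type*} [CommRing A] [CommRing B] (φ : A →+* B)
    (h : Function.Injective φ) : Function.Injective (bmap φ) := by
  apply Polynomial.map_injective
  exact Polynomial.map_injective _ h

lemma uni_abs {A K : Type} [CommRing A] [IsDomain A] [Field K] [Algebra A K]
    [IsFractionRing A K] (θ : A →+* ℂ[X][Y]) (ι : ℂ →+* A)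
    (x : A) (hι : ∀ c, θ (ι c) = C (C c))
    (hext : ∀ (T : Type) [CommRing T] (f g : A →+* T), (∀ c, f (ι c) = g (ι c)) → f x = g x →
      f = g) (hθ : ∀ p : A, p ≠ 0 → θ p ≠ 0)
    (hdiv : ∀ p : A, p ≠ 0 → ∀ y : ℂ[X][Y], y ∣ θ p → ∃ P : A, P ≠ 0 ∧ y = θ P)
    (u v : K[X][Y])
    (huv : (bmap ((algebraMap A K).comp ι) (θ x) - C (C (algebraMap A K x))) ∣ u * v - 1) :
    ∃ c : K, c ≠ 0 ∧
      (bmap ((algebraMap A K).comp ι) (θ x) - C (C (algebraMap A K x))) ∣ u - C (C c) := by
  set al : A →+* K := algebraMap A K with hal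
  have hinj : Function.Injective al := IsFractionRing.injective A K
  have hNK : bmap (al.comp ι) (θ x) - C (C (al x)) = bmap al (bmap ι (θ x) - C (C x)) := by
    have h1 : bmap al (bmap ι (θ x) - C (C x)) = bmap al (bmap ι (θ x)) - bmap al (C (C x)) := by
      simp [bmap]
    rw [h1, bmap_comp]
    congr 1
    simp [bmap]
  rw [hNK] at huv ⊢
  obtain ⟨g, hg⟩ := huv
  obtain ⟨p, U, hp, hU⟩ := clear (A := A) u
  obtain ⟨q, W, hq, hW⟩ := clear (A := A) v
  obtain ⟨s, G, hs, hG⟩ := clear (A := A) g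
  have hbm : ∀ a b : A[X][Y], bmap al (a * b) = bmap al a * bmap al b := by
    intro a b; simp [bmap]
  have hbs : ∀ a b : A[X][Y], bmap al (a - b) = bmap al a - bmap al b := by
    intro a b; simp [bmap]
  have hbc : ∀ a : A, bmap al (C (C a)) = C (C (al a)) := by
    intro a; simp [bmap]
  have key : C (C s) * (U * W - C (C (p * q))) = (bmap ι (θ x) - C (C x)) * (C (C (p * q)) * G) := by
    apply bmap_injective al hinj
    rw [hbm, hbs, hbm, hbm, hbm, hU, hW, hG, hbc, hbc, map_mul, C_mul, C_mul]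
    linear_combination (C (C (al s)) * C (C (al p)) * C (C (al q))) * hg
  have key2 := congrArg (sub θ) key
  rw [(sub θ).map_mul, (sub θ).map_sub, (sub θ).map_mul, (sub θ).map_mul, (sub θ).map_sub,
    sub_bmap θ ι hι, sub_CC, sub_CC, sub_CC] at key2
  simp only [sub_self, zero_mul, mul_eq_zero] at key2
  have h3 : sub θ U * sub θ W = θ (p * q) := by
    rcases key2 with h4 | h4
    · exact absurd h4 (hθ s hs)
    · exact sub_eq_zero.mp h4
  have hpq : p * q ≠ 0 := mul_ne_zero hp hq
  obtain ⟨P, hP, hUP⟩ := hdiv (p * q) hpq (sub θ U) (by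
      rw [← h3]
      exact dvd_mul_right _ _)
  have h5 : (bmap ι (θ x) - C (C x)) ∣ U - C (C P) := by
    have h6 := dvd_sub θ ι x hι hext U
    have h7 := dvd_sub θ ι x hι hext (C (C P))
    rw [sub_CC, ← hUP] at h7
    have h8 := _root_.dvd_sub h6 h7
    convert h8 using 1
    ring
  refine ⟨al P / al p, ?_, ?_⟩
  · apply div_ne_zero
    · intro h; exact hP (hinj (by simpa using h))
    · intro h; exact hp (hinj (by simpa using h))
  · obtain ⟨H, hH⟩ := h5
    have h9 := congrArg (bmap al) hH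
    rw [hbs, hbm, hU, hbc] at h9
    refine ⟨C (C (al p)⁻¹) * bmap al H, ?_⟩
    have hp1 : al p ≠ 0 := by
      intro h; exact hp (hinj (by simpa using h))
    have h10 : (C (C (al p)⁻¹) : K[X][Y]) * C (C (al p)) = 1 := by
      rw [← C_mul, ← C_mul, inv_mul_cancel₀ hp1]
      simp
    have h11 : (C (C (al P / al p)) : K[X][Y]) = C (C (al p)⁻¹) * C (C (al P)) := by
      rw [← C_mul, ← C_mul]
      congr 2
      field_simp
    rw [h11]
    linear_combination (C (C (al p)⁻¹)) * h9 - u * h10

theorem uni : UniStmt := by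
  intro N hN u v huv
  have hcomp : (algebraMap ℂ[X] (FractionRing ℂ[X])).comp (C : ℂ →+* ℂ[X])
      = algebraMap ℂ (FractionRing ℂ[X]) := by
    rw [IsScalarTower.algebraMap_eq ℂ ℂ[X] (FractionRing ℂ[X])]
    rfl
  have h := uni_abs (A := ℂ[X]) (K := FractionRing ℂ[X])
    ((aeval N : ℂ[X] →ₐ[ℂ] ℂ[X][Y]) : ℂ[X] →+* ℂ[X][Y]) C X (by intro c; simp) (by
      intro T _ f g h1 h2
      apply Polynomial.ringHom_ext'
      · ext c
        exact h1 c
      · exact h2) (by
      intro p hp
      exact aeval_ne_zero N hN p hp) (by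
      intro p hp y hy
      apply exists_of_dvd_prod N hN p.leadingCoeff (leadingCoeff_ne_zero.mpr hp) p.roots y
      rw [← aeval_eq_prod]
      exact hy) u v
  rw [hcomp] at h
  simp only [RingHom.coe_coe, aeval_X] at h
  exact h huv

end Pool.Agent.LDP.H85
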